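import Pool.Agent.SQD.Stmts

namespace Pool.Agent.SQD.H25

open Finset Filter Topology

theorem abl_parts (f : ℕ → ℝ) (a : ℕ → ℝ) (P : ℕ) (hF : ∀ M : ℕ, |∑ m ∈ Finset.range M, f m| ≤ P)
    (ha : ∀ m, a (m + 1) ≤ a m) (n : ℕ) :
    |∑ i ∈ Finset.range n, f (P + i + 1) * a (P + i)
      - (∑ m ∈ Finset.range (P + n + 1), f m) * a (P + n)
      + (∑ m ∈ Finset.range (P + 1), f m) * a P| ≤ P * (a P - a (P + n)) := by
  induction n with
  | zero => simp
  | succ n ih =>
    have h1 : ∑ i ∈ Finset.range (n + 1), f (P + i + 1) * a (P + i)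
      - (∑ m ∈ Finset.range (P + (n + 1) + 1), f m) * a (P + (n + 1))
      + (∑ m ∈ Finset.range (P + 1), f m) * a P =
      (∑ i ∈ Finset.range n, f (P + i + 1) * a (P + i)
      - (∑ m ∈ Finset.range (P + n + 1), f m) * a (P + n)
      + (∑ m ∈ Finset.range (P + 1), f m) * a P) +
      (∑ m ∈ Finset.range (P + n + 1 + 1), f m) * (a (P + n) - a (P + n + 1)) := by
      rw [Finset.sum_range_succ (fun i => f (P + i + 1) * a (P + i)) n,
        show P + (n + 1) + 1 = P + n + 1 + 1 by ring, show P + (n + 1) = P + n + 1 by ring,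
        Finset.sum_range_succ f (P + n + 1)]
      ring
    rw [h1]
    have h2 := abs_add_le (∑ i ∈ Finset.range n, f (P + i + 1) * a (P + i)
      - (∑ m ∈ Finset.range (P + n + 1), f m) * a (P + n)
      + (∑ m ∈ Finset.range (P + 1), f m) * a P)
      ((∑ m ∈ Finset.range (P + n + 1 + 1), f m) * (a (P + n) - a (P + n + 1)))
    have h3 : |(∑ m ∈ Finset.range (P + n + 1 + 1), f m) * (a (P + n) - a (P + n + 1))| ≤
        P * (a (P + n) - a (P + n + 1)) := by
      rw [abs_mul, abs_of_nonneg (sub_nonneg.2 (ha (P + n)))]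
      exact mul_le_mul_of_nonneg_right (hF _) (sub_nonneg.2 (ha (P + n)))
    have h4 : a (P + (n + 1)) = a (P + n + 1) := rfl
    rw [h4]
    linarith

theorem abl_fin (f : ℕ → ℝ) (P : ℕ) (s : ℝ) (hP : 2 ≤ P) (hs : 1 < s) (hf : ∀ m, |f m| ≤ 1)
    (hF : ∀ M : ℕ, |∑ m ∈ Finset.range M, f m| ≤ P) (N : ℕ) :
    |∑ m ∈ Finset.range N, f (m + 1) / ((m : ℝ) + 1) ^ s| ≤ 3 + Real.log P := by
  have hP1 : (2 : ℝ) ≤ P := by exact_mod_cast hP
  have hlow : ∀ n, n ≤ P → |∑ m ∈ Finset.range n, f (m + 1) / ((m : ℝ) + 1) ^ s| ≤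
      1 + Real.log P := by
    intro n hn
    have h1 : |∑ m ∈ Finset.range n, f (m + 1) / ((m : ℝ) + 1) ^ s| ≤
        ∑ m ∈ Finset.range n, ((m : ℝ) + 1)⁻¹ := by
      refine (Finset.abs_sum_le_sum_abs _ _).trans (Finset.sum_le_sum fun m _ => ?_)
      have hm : (1 : ℝ) ≤ (m : ℝ) + 1 := by
        have : (0 : ℝ) ≤ m := Nat.cast_nonneg m
        linarith
      have h2 : ((m : ℝ) + 1) ≤ ((m : ℝ) + 1) ^ s := by
        have := Real.rpow_le_rpow_of_exponent_le hm hs.le
        rwa [Real.rpow_one] at this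
      rw [abs_div, abs_of_pos (a := ((m : ℝ) + 1) ^ s) (by linarith), ← one_div]
      exact div_le_div₀ zero_le_one (hf _) (by linarith) h2
    have h2 : ∑ m ∈ Finset.range n, ((m : ℝ) + 1)⁻¹ ≤ ∑ m ∈ Finset.range P, ((m : ℝ) + 1)⁻¹ := by
      apply Finset.sum_le_sum_of_subset_of_nonneg
      · intro m hm
        rw [Finset.mem_range] at hm ⊢
        omega
      · intro m _ _
        positivity
    have h3 : ∑ m ∈ Finset.range P, ((m : ℝ) + 1)⁻¹ ≤ 1 + Real.log P := by
      have h := harmonic_le_one_add_log P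
      rw [harmonic] at h
      push_cast at h
      exact h
    linarith
  rcases Nat.le_total N P with h | h
  · have := hlow N h
    linarith
  · obtain ⟨n, rfl⟩ := Nat.exists_eq_add_of_le h
    rw [Finset.sum_range_add]
    have h1 := hlow P le_rfl
    let a : ℕ → ℝ := fun m => 1 / ((m : ℝ) + 1) ^ s
    have ha : ∀ m, a (m + 1) ≤ a m := by
      intro m
      simp only [a]
      apply one_div_le_one_div_of_le
      · positivity
      · apply Real.rpow_le_rpow (by positivity) _ (by linarith)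
        push_cast
        linarith
    have ha0 : ∀ m, 0 ≤ a m := by
      intro m
      simp only [a]
      positivity
    have h2 := abl_parts f a P hF ha n
    have h3 : ∑ i ∈ Finset.range n, f (P + i + 1) * a (P + i) =
        ∑ i ∈ Finset.range n, f (P + i + 1) / (((P + i : ℕ) : ℝ) + 1) ^ s := by
      apply Finset.sum_congr rfl
      intro i _
      simp only [a]
      rw [mul_one_div]
    rw [h3] at h2
    have h4 : |(∑ m ∈ Finset.range (P + n + 1), f m) * a (P + n)| ≤ P * a (P + n) := by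
      rw [abs_mul, abs_of_nonneg (ha0 _)]
      exact mul_le_mul_of_nonneg_right (hF _) (ha0 _)
    have h5 : |(∑ m ∈ Finset.range (P + 1), f m) * a P| ≤ P * a P := by
      rw [abs_mul, abs_of_nonneg (ha0 _)]
      exact mul_le_mul_of_nonneg_right (hF _) (ha0 _)
    have h6 : (P : ℝ) * a P ≤ 1 := by
      simp only [a]
      have h7 : ((P : ℝ) + 1) ≤ ((P : ℝ) + 1) ^ s := by
        have := Real.rpow_le_rpow_of_exponent_le (x := (P : ℝ) + 1) (by linarith) hs.le
        rwa [Real.rpow_one] at this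
      rw [mul_one_div, div_le_one (by linarith)]
      linarith
    rw [abs_le] at h1 h2 h4 h5 ⊢
    constructor <;> linarith [h1.1, h1.2, h2.1, h2.2, h4.1, h4.2, h5.1, h5.2]

theorem abl : AblStmt := by
  intro f P s hP hs hf hF
  have hsum : Summable fun m : ℕ => f (m + 1) / ((m : ℝ) + 1) ^ s := by
    have h1 : Summable fun m : ℕ => 1 / ((m : ℝ) + 1) ^ s := by
      have h := (summable_nat_add_iff 1).2 (Real.summable_one_div_nat_rpow.2 hs)
      push_cast at h
      exact h
    refine Summable.of_norm_bounded h1 ?_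
    intro m
    have h2 : (0 : ℝ) < ((m : ℝ) + 1) ^ s := by positivity
    rw [Real.norm_eq_abs, abs_div, abs_of_pos h2]
    exact div_le_div_of_nonneg_right (hf _) h2.le
  have ht := hsum.hasSum.tendsto_sum_nat.abs
  exact le_of_tendsto' ht fun N => abl_fin f P s hP hs hf hF N

end Pool.Agent.SQD.H25
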