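import Pool.Agent.SQD.Stmts
import Pool.Agent.Common_Mertens.Mertens
import Pool.Agent.Common_Sieve.Count

namespace Pool.Agent.SQD.H25

open Finset

theorem pr_zero (z : ℕ) : PR 0 z = Nat.primesLE z := by
  ext p
  rw [PR, Finset.mem_filter, Finset.mem_Ioc, Nat.mem_primesLE]
  constructor
  · rintro ⟨⟨_, h⟩, hp⟩
    exact ⟨h, hp⟩
  · rintro ⟨h, hp⟩
    exact ⟨⟨hp.pos, h⟩, hp⟩

theorem sR_split (w z : ℕ) (h : w ≤ z) : sR (PR 0 z) = sR (PR 0 w) + sR (PR w z) := by
  rw [sR, sR, sR, ← Finset.sum_union]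
  · congr 1
    ext p
    simp only [PR, Finset.mem_filter, Finset.mem_Ioc, Finset.mem_union]
    constructor
    · rintro ⟨⟨h1, h2⟩, hp⟩
      rcases Nat.lt_or_ge w p with h3 | h3
      · right; exact ⟨⟨h3, h2⟩, hp⟩
      · left; exact ⟨⟨h1, h3⟩, hp⟩
    · rintro (⟨⟨h1, h2⟩, hp⟩ | ⟨⟨h1, h2⟩, hp⟩)
      · exact ⟨⟨h1, h2.trans h⟩, hp⟩
      · exact ⟨⟨by omega, h2⟩, hp⟩
  · rw [Finset.disjoint_left]
    intro p hp hp'
    simp only [PR, Finset.mem_filter, Finset.mem_Ioc] at hp hp'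
    omega

theorem neg_log_le (p : ℕ) (hp : 2 ≤ p) :
    -Real.log (1 - (1 : ℝ) / p) ≤ 1 / p + (1 / ((p : ℝ) - 1) - 1 / p) := by
  have hp1 : (2 : ℝ) ≤ p := by exact_mod_cast hp
  have h0 : (0 : ℝ) < 1 - 1 / p := by
    rw [sub_pos, div_lt_one (by linarith)]
    linarith
  have h1 := Real.one_sub_inv_le_log_of_pos h0
  have h2 : (1 - (1 : ℝ) / p)⁻¹ = 1 + 1 / ((p : ℝ) - 1) := by
    have : (p : ℝ) ≠ 0 := by linarith
    have h3 : (p : ℝ) - 1 ≠ 0 := by
      intro h
      linarith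
    rw [show (1 : ℝ) - 1 / p = (p - 1) / p by field_simp, inv_div]
    field_simp
    ring
  rw [h2] at h1
  linarith

theorem tele (z : ℕ) : ∑ p ∈ (Finset.range z).filter (fun n => 2 ≤ n),
    (1 / ((p : ℝ) - 1) - 1 / p) ≤ 1 := by
  have key : ∀ n : ℕ, ∑ p ∈ (Finset.range (n + 2)).filter (fun n => 2 ≤ n),
      (1 / ((p : ℝ) - 1) - 1 / p) = 1 - 1 / ((n : ℝ) + 1) := by
    intro n
    induction n with
    | zero =>
      have : (Finset.range (0 + 2)).filter (fun n => 2 ≤ n) = ∅ := by decide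
      rw [this]
      simp
    | succ n ih =>
      rw [show n + 1 + 2 = (n + 2) + 1 by ring, Finset.range_add_one, Finset.filter_insert,
        if_pos (by omega : 2 ≤ n + 2), Finset.sum_insert (by simp), ih]
      push_cast
      have h1 : (n : ℝ) + 1 ≠ 0 := by positivity
      have h2 : (n : ℝ) + 2 - 1 = n + 1 := by ring
      have h3 : (n : ℝ) + 1 + 1 = n + 2 := by ring
      rw [h2, h3]
      ring
  rcases Nat.lt_or_ge z 2 with h | h
  · have : (Finset.range z).filter (fun n => 2 ≤ n) = ∅ := by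
      ext n
      simp only [Finset.mem_filter, Finset.mem_range, Finset.notMem_empty, iff_false]
      omega
    rw [this]
    simp
  · obtain ⟨n, rfl⟩ := Nat.exists_eq_add_of_le h
    rw [show 2 + n = n + 2 by ring, key]
    have : (0 : ℝ) ≤ 1 / ((n : ℝ) + 1) := by positivity
    linarith

theorem lower (z : ℕ) (hz : 2 ≤ z) : Real.log (Real.log z) ≤ sR (PR 0 z) + 1 := by
  have hm := Pool.Agent.Common_Sieve.mertens_prod z hz
  have hz1 : (2 : ℝ) ≤ z := by exact_mod_cast hz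
  have hl : 0 < Real.log z := Real.log_pos (by linarith)
  have hpos : ∀ p ∈ z.primesBelow, (0 : ℝ) < 1 - 1 / p := by
    intro p hp
    have h2 : 2 ≤ p := (Nat.prime_of_mem_primesBelow hp).two_le
    have h3 : (2 : ℝ) ≤ p := by exact_mod_cast h2
    rw [sub_pos, div_lt_one (by linarith)]
    linarith
  have hprod : 0 < ∏ p ∈ z.primesBelow, (1 - (1 : ℝ) / p) := Finset.prod_pos hpos
  have h1 : Real.log (∏ p ∈ z.primesBelow, (1 - (1 : ℝ) / p)) ≤ Real.log (1 / Real.log z) :=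
    Real.log_le_log hprod hm
  rw [Real.log_prod (fun p hp => (hpos p hp).ne'), one_div, Real.log_inv] at h1
  have h2 : Real.log (Real.log z) ≤ ∑ p ∈ z.primesBelow, -Real.log (1 - (1 : ℝ) / p) := by
    rw [Finset.sum_neg_distrib]
    linarith
  have h3 : ∑ p ∈ z.primesBelow, -Real.log (1 - (1 : ℝ) / p) ≤
      ∑ p ∈ z.primesBelow, (1 / (p : ℝ)) +
        ∑ p ∈ z.primesBelow, (1 / ((p : ℝ) - 1) - 1 / p) := by
    rw [← Finset.sum_add_distrib]
    exact Finset.sum_le_sum fun p hp => neg_log_le p (Nat.prime_of_mem_primesBelow hp).two_le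
  have h4 : ∑ p ∈ z.primesBelow, (1 / (p : ℝ)) ≤ sR (PR 0 z) := by
    rw [sR]
    apply Finset.sum_le_sum_of_subset_of_nonneg
    · intro p hp
      rw [Nat.mem_primesBelow] at hp
      rw [PR, Finset.mem_filter, Finset.mem_Ioc]
      exact ⟨⟨hp.2.pos, hp.1.le⟩, hp.2⟩
    · intro p _ _
      positivity
  have h5 : ∑ p ∈ z.primesBelow, (1 / ((p : ℝ) - 1) - 1 / p) ≤ 1 := by
    refine le_trans ?_ (tele z)
    apply Finset.sum_le_sum_of_subset_of_nonneg
    · intro p hp
      rw [Nat.mem_primesBelow] at hp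
      rw [Finset.mem_filter, Finset.mem_range]
      exact ⟨hp.1, hp.2.two_le⟩
    · intro p hp _
      rw [Finset.mem_filter] at hp
      have h6 : (2 : ℝ) ≤ p := by exact_mod_cast hp.2
      rw [sub_nonneg]
      apply one_div_le_one_div_of_le <;> linarith
  linarith

theorem mer : MerStmt := by
  obtain ⟨C, hC⟩ := Pool.Agent.Common_Mertens.sum_inv_le
  have hup : ∀ z : ℕ, 2 ≤ z → sR (PR 0 z) ≤ Real.log (Real.log z) + (C + Real.log 2) := by
    intro z hz
    have h := hC z (by omega)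
    have hz1 : (2 : ℝ) ≤ z := by exact_mod_cast hz
    have hl : 0 < Real.log z := Real.log_pos (by linarith)
    have h1 : Real.log ((z : ℝ) + 1) ≤ 2 * Real.log z := by
      rw [show (2 : ℝ) * Real.log z = Real.log ((z : ℝ) ^ 2) by rw [Real.log_pow]; norm_num]
      apply Real.log_le_log (by linarith)
      nlinarith
    have h2 : Real.log (Real.log ((z : ℝ) + 1)) ≤ Real.log 2 + Real.log (Real.log z) := by
      rw [← Real.log_mul (by norm_num) hl.ne']
      exact Real.log_le_log (Real.log_pos (by linarith)) h1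
    rw [pr_zero, sR]
    linarith
  refine ⟨C + Real.log 2 + 1, fun w z hw hwz => ⟨?_, ?_⟩⟩
  · have h1 := lower z (hw.trans hwz)
    have h2 := hup w hw
    have h3 := sR_split w z hwz
    linarith
  · have h1 := hup z (hw.trans hwz)
    linarith

end Pool.Agent.SQD.H25
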