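import Pool.Agent.SQD.Stmts

namespace Pool.Agent.SQD.H25

open Finset

theorem zet_step (t : ℝ) (ht : 0 < t) (m : ℕ) :
    1 / ((m : ℝ) + 1 + 1) ^ (t + 1) ≤
      (1 / t) * (((m : ℝ) + 1) ^ (-t) - ((m : ℝ) + 1 + 1) ^ (-t)) := by
  have hm : (0 : ℝ) < (m : ℝ) + 1 := by positivity
  have hm2 : (0 : ℝ) < (m : ℝ) + 1 + 1 := by positivity
  set x : ℝ := (m : ℝ) + 1 with hx
  have h1 : 1 / (x + 1) ≤ Real.log (x + 1) - Real.log x := by
    rw [← Real.log_div hm2.ne' hm.ne']
    have h := Real.one_sub_inv_le_log_of_pos (show 0 < (x + 1) / x by positivity)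
    have h2 : 1 - ((x + 1) / x)⁻¹ = 1 / (x + 1) := by
      rw [inv_div]
      field_simp
      ring
    rw [h2] at h
    exact h
  have h2 : x ^ (-t) = (x + 1) ^ (-t) * Real.exp (t * (Real.log (x + 1) - Real.log x)) := by
    rw [Real.rpow_def_of_pos hm, Real.rpow_def_of_pos hm2, ← Real.exp_add]
    congr 1
    ring
  have h3 : 1 + t * (1 / (x + 1)) ≤ Real.exp (t * (Real.log (x + 1) - Real.log x)) := by
    have h4 := Real.add_one_le_exp (t * (Real.log (x + 1) - Real.log x))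
    have h5 : t * (1 / (x + 1)) ≤ t * (Real.log (x + 1) - Real.log x) :=
      mul_le_mul_of_nonneg_left h1 ht.le
    linarith
  have h4 : 0 < (x + 1) ^ (-t) := Real.rpow_pos_of_pos hm2 _
  have h5 : (x + 1) ^ (-t) * (1 + t * (1 / (x + 1))) ≤ x ^ (-t) := by
    rw [h2]
    exact mul_le_mul_of_nonneg_left h3 h4.le
  have h6 : 1 / (x + 1) ^ (t + 1) = (x + 1) ^ (-t) * (1 / (x + 1)) := by
    rw [Real.rpow_add hm2, Real.rpow_one, Real.rpow_neg hm2.le]
    field_simp
  rw [h6]
  have h7 : (x + 1) ^ (-t) * (1 / (x + 1)) =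
      (1 / t) * ((x + 1) ^ (-t) * (1 + t * (1 / (x + 1))) - (x + 1) ^ (-t)) := by
    field_simp
    ring
  rw [h7]
  apply mul_le_mul_of_nonneg_left _ (by positivity)
  linarith

theorem zet_fin (t : ℝ) (ht : 0 < t) (N : ℕ) :
    ∑ m ∈ Finset.range N, 1 / ((m : ℝ) + 1 + 1) ^ (t + 1) ≤
      (1 / t) * (1 - ((N : ℝ) + 1) ^ (-t)) := by
  induction N with
  | zero => simp
  | succ N ih =>
    rw [Finset.sum_range_succ]
    have h := zet_step t ht N
    push_cast
    have h1 : (1 / t) * (1 - ((N : ℝ) + 1 + 1) ^ (-t)) = (1 / t) * (1 - ((N : ℝ) + 1) ^ (-t)) +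
        (1 / t) * (((N : ℝ) + 1) ^ (-t) - ((N : ℝ) + 1 + 1) ^ (-t)) := by ring
    rw [h1]
    linarith

theorem zet : ZetStmt := by
  intro s hs
  apply Real.tsum_le_of_sum_range_le
  · intro n
    positivity
  · intro n
    have ht : 0 < s - 1 := by linarith
    rcases n with _ | n
    · simp only [Finset.range_zero, Finset.sum_empty]
      positivity
    · rw [Finset.sum_range_succ']
      have h := zet_fin (s - 1) ht n
      rw [show s - 1 + 1 = s by ring] at h
      have h1 : 0 ≤ ((n : ℝ) + 1) ^ (-(s - 1)) := by positivity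
      have h2 : (1 / (s - 1)) * (1 - ((n : ℝ) + 1) ^ (-(s - 1))) ≤ 1 / (s - 1) := by
        have : 0 ≤ 1 / (s - 1) := by positivity
        nlinarith
      push_cast
      rw [zero_add, Real.one_rpow]
      norm_num
      norm_num at h h2
      linarith

end Pool.Agent.SQD.H25
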